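import Mathlib
import Pool.Agent.helper18.Rot.SymDefs

/-!
# mod:tower — the first return map
-/

open Topology Filter Set

namespace Pool.Agent.helper61.Rot

open Pool.Agent.helper18.Rot Pool.Agent.helper18.Rot.Sym

theorem NN_big (k : ℕ) : 1000 ≤ NN k := by
  unfold NN
  have : 1 ≤ (k + 2) ^ 8 := Nat.one_le_pow _ _ (by omega)
  omega

theorem letter_cases (t : Letter) : t = 0 ∨ t = 1 ∨ t = 2 ∨ t = 3 ∨ t = 4 := by
  fin_cases t <;> simp

section

variable (E : Data)

theorem al_one (k : ℕ) : E.al k < 1 := by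
  have := E.al_lt k; linarith

theorem typ_cases (k : ℕ) (y : ℝ) :
    (E.typ k y = 0 ∧ y < E.bA k) ∨
    (E.typ k y = 1 ∧ E.bA k ≤ y ∧ y < E.bA k + E.ga k) ∨
    (E.typ k y = 2 ∧ E.bA k + E.ga k ≤ y ∧ y < E.D k) ∨
    (E.typ k y = 3 ∧ E.D k ≤ y ∧ y < 1 - E.al k) ∨
    (E.typ k y = 4 ∧ E.D k ≤ y ∧ 1 - E.al k ≤ y) := by
  have hA := E.bA_pos k
  have hg := E.ga_pos k
  have hB := E.bB_pos k
  have hs := E.small k
  have hal := E.al_lt k
  have hD : E.D k = E.bA k + E.ga k + E.bB k := rfl
  unfold Data.typ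
  split_ifs with h1 h2 h3 h4
  · exact Or.inl ⟨rfl, h1⟩
  · exact Or.inr (Or.inl ⟨rfl, not_lt.mp h1, h2⟩)
  · exact Or.inr (Or.inr (Or.inl ⟨rfl, not_lt.mp h2, h3⟩))
  · exact Or.inr (Or.inr (Or.inr (Or.inl ⟨rfl, not_lt.mp h3, h4⟩)))
  · exact Or.inr (Or.inr (Or.inr (Or.inr ⟨rfl, not_lt.mp h3, not_lt.mp h4⟩)))

theorem nt_cast (k : ℕ) (t : Letter) :
    (nt k t : ℝ) = NN k - if t = 4 then 1 else 0 := by
  have := NN_big k
  unfold nt
  split_ifs
  · push_cast [Nat.cast_sub (show 1 ≤ NN k by omega)]; ring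
  · simp

/-- the point `(y + i) al k` is in `[0,1)` -/
theorem tower_lt (k : ℕ) {y : ℝ} (h1 : y < 1) {i : ℕ}
    (hi : i < nt k (E.typ (k + 1) y)) : y + i < NN k - E.al (k + 1) := by
  have hN := NN_big k
  have ha := al_one E (k + 1)
  have hi' : (i : ℝ) + 1 ≤ nt k (E.typ (k + 1) y) := by exact_mod_cast hi
  rw [nt_cast] at hi'
  by_cases h4 : E.typ (k + 1) y = 4
  · rw [if_pos h4] at hi'
    linarith
  · rw [if_neg h4] at hi'
    have : y < 1 - E.al (k + 1) := by
      have hs := E.small (k + 1)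
      have hal := E.al_lt (k + 1)
      have hD : E.D (k + 1) = E.bA (k + 1) + E.ga (k + 1) + E.bB (k + 1) := rfl
      have hA := E.bA_pos (k + 1)
      have hg := E.ga_pos (k + 1)
      have hB := E.bB_pos (k + 1)
      rcases typ_cases E (k + 1) y with h | h | h | h | h
      · linarith [h.2]
      · linarith [h.2.2]
      · linarith [h.2.2]
      · exact h.2.2
      · exact absurd h.1 h4
    linarith

theorem al_mul (k : ℕ) : (NN k - E.al (k + 1)) * E.al k = 1 := by
  have := E.al_rec k; linarith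

theorem lt_iff_lt (k : ℕ) (u v : ℝ) : u * E.al k < v * E.al k ↔ u < v :=
  mul_lt_mul_iff_left₀ (E.al_pos k)

theorem nat_thr {y b : ℝ} (h0 : 0 ≤ y) (h1 : y < 1) (hb0 : 0 < b) (hb1 : b ≤ 1) (i m : ℕ) :
    y + i < m + b ↔ i < m + if y < b then 1 else 0 := by
  constructor
  · intro h
    split_ifs with hy
    · by_contra hcon
      have : (m : ℝ) + 1 ≤ i := by exact_mod_cast (not_lt.mp hcon)
      linarith
    · by_contra hcon
      have : (m : ℝ) ≤ i := by exact_mod_cast (not_lt.mp hcon)
      linarith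
  · intro h
    split_ifs at h with hy
    · have : (i : ℝ) ≤ m := by exact_mod_cast (Nat.lt_succ_iff.mp h)
      linarith
    · have : (i : ℝ) + 1 ≤ m := by exact_mod_cast h
      linarith

theorem typ_sub (k : ℕ) {y : ℝ} (h0 : 0 ≤ y) (h1 : y < 1) {i : ℕ}
    (hi : i < nt k (E.typ (k + 1) y)) :
    E.typ k ((y + i) * E.al k) = sub k (E.typ (k + 1) y) i := by
  have hN := NN_big k
  have hs := E.small (k + 1)
  have hal := E.al_lt (k + 1)
  have hal0 := E.al_pos (k + 1)
  have hD : E.D (k + 1) = E.bA (k + 1) + E.ga (k + 1) + E.bB (k + 1) := rfl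
  have hA := E.bA_pos (k + 1)
  have hg := E.ga_pos (k + 1)
  have hB := E.bB_pos (k + 1)
  have hc := typ_cases E (k + 1) y
  set t := E.typ (k + 1) y with ht
  have hT := tower_lt E k h1 hi
  -- the four comparisons
  have c1 : (y + i) * E.al k < E.bA k ↔ i < 3 * mA k + eA t := by
    rw [E.bA_rec k, lt_iff_lt]
    have := nat_thr h0 h1 hA (by linarith) i (3 * mA k)
    push_cast at this
    rw [this]
    have h2 : (if y < E.bA (k + 1) then 1 else 0) = eA t := by
      unfold eA
      rcases hc with h | h | h | h | h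
      · rw [if_pos h.2, if_pos h.1]
      all_goals
        rw [if_neg (by linarith [h.2.1]), if_neg (by rw [h.1]; decide)]
    rw [h2]
  have c2 : (y + i) * E.al k < E.bA k + E.ga k ↔ i < gB k t := by
    rw [E.bA_rec k, E.ga_rec k, ← add_mul, lt_iff_lt]
    have := nat_thr h0 h1 (b := E.bA (k + 1) + E.ga (k + 1)) (by linarith) (by linarith) i
      (3 * mA k + ml k)
    have e : (3 * (mA k : ℝ) + E.bA (k + 1) + (ml k + E.ga (k + 1))) =
      ((3 * mA k + ml k : ℕ) : ℝ) + (E.bA (k + 1) + E.ga (k + 1)) := by push_cast; ring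
    rw [e, this]
    unfold gB
    have h2 : (if y < E.bA (k + 1) + E.ga (k + 1) then 1 else 0) = if t = 0 ∨ t = 1 then 1 else 0 := by
      rcases hc with h | h | h | h | h
      · rw [if_pos (by linarith [h.2]), if_pos (Or.inl h.1)]
      · rw [if_pos (by linarith [h.2.2]), if_pos (Or.inr h.1)]
      all_goals
        rw [if_neg (by linarith [h.2.1]), if_neg (by rw [h.1]; decide)]
    rw [h2]
  have c3 : (y + i) * E.al k < E.D k ↔ i < gR k t := by
    have hDk : E.D k = E.bA k + E.ga k + E.bB k := rfl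
    rw [hDk, E.bA_rec k, E.ga_rec k, E.bB_rec k, ← add_mul, ← add_mul, lt_iff_lt]
    have := nat_thr h0 h1 (b := E.bA (k + 1) + E.ga (k + 1) + E.bB (k + 1)) (by linarith)
      (by linarith) i (3 * mA k + ml k + 3 * mB k)
    have e : (3 * (mA k : ℝ) + E.bA (k + 1) + (ml k + E.ga (k + 1)) + (3 * mB k + E.bB (k + 1))) =
      ((3 * mA k + ml k + 3 * mB k : ℕ) : ℝ) +
        (E.bA (k + 1) + E.ga (k + 1) + E.bB (k + 1)) := by push_cast; ring
    rw [e, this]
    unfold gR
    have h2 : (if y < E.bA (k + 1) + E.ga (k + 1) + E.bB (k + 1) then 1 else 0) =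
        if t = 0 ∨ t = 1 ∨ t = 2 then 1 else 0 := by
      rcases hc with h | h | h | h | h
      · rw [if_pos (by linarith [h.2]), if_pos (Or.inl h.1)]
      · rw [if_pos (by linarith [h.2.2]), if_pos (Or.inr (Or.inl h.1))]
      · rw [if_pos (by linarith [h.2.2]), if_pos (Or.inr (Or.inr h.1))]
      all_goals
        rw [if_neg (by linarith [h.2.1]), if_neg (by rw [h.1]; decide)]
    rw [h2]
  have c4 : (y + i) * E.al k < 1 - E.al k ↔ i + 1 < nt k t := by
    have e : 1 - E.al k = (NN k - E.al (k + 1) - 1) * E.al k := by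
      have := al_mul E k; linear_combination (-1 : ℝ) * this
    rw [e, lt_iff_lt]
    have hnt := nt_cast k t
    have hiN : ((i : ℝ) + 1 < nt k t ↔ i + 1 < nt k t) := by exact_mod_cast Iff.rfl
    have hiN2 : (i + 1 = nt k t ∨ i + 2 ≤ nt k t) := by omega
    rcases hiN2 with h | h
    · -- last letter
      have hr : (i : ℝ) + 1 = nt k t := by exact_mod_cast h
      rw [hnt] at hr
      constructor
      · intro h'
        exfalso
        by_cases h4 : t = 4
        · rw [if_pos h4] at hr
          have : 1 - E.al (k + 1) ≤ y := by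
            rcases hc with h | h | h | h | h
            · rw [h.1] at h4; exact absurd h4 (by decide)
            · rw [h.1] at h4; exact absurd h4 (by decide)
            · rw [h.1] at h4; exact absurd h4 (by decide)
            · rw [h.1] at h4; exact absurd h4 (by decide)
            · exact h.2.2
          linarith
        · rw [if_neg h4] at hr
          linarith
      · intro h'; omega
    · have hr : (i : ℝ) + 2 ≤ nt k t := by exact_mod_cast h
      rw [hnt] at hr
      constructor
      · intro _; omega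
      · intro _
        by_cases h4 : t = 4
        · rw [if_pos h4] at hr
          linarith
        · rw [if_neg h4] at hr
          have : y < 1 - E.al (k + 1) := by
            rcases hc with h | h | h | h | h
            · linarith [h.2]
            · linarith [h.2.2]
            · linarith [h.2.2]
            · exact h.2.2
            · exact absurd h.1 h4
          linarith
  unfold Data.typ sub
  simp only [c1, c2, c3, c4]

theorem typ_tower (k : ℕ) {y : ℝ} (h0 : 0 ≤ y) (h1 : y < 1) {i : ℕ}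
    (hi : i < nt k (E.typ (k + 1) y)) :
    0 ≤ (y + i) * E.al k ∧ (y + i) * E.al k < 1 ∧
    E.typ k ((y + i) * E.al k) = sub k (E.typ (k + 1) y) i ∧
    (i + 1 < nt k (E.typ (k + 1) y) →
      Int.fract ((y + i) * E.al k + E.al k) = (y + (i + 1 : ℕ)) * E.al k) ∧
    (i + 1 = nt k (E.typ (k + 1) y) →
      Int.fract ((y + i) * E.al k + E.al k) = Int.fract (y + E.al (k + 1)) * E.al k) := by
  have hpos := E.al_pos k
  have hpos' := E.al_pos (k + 1)
  have hal1 := al_one E k
  have hal1' := al_one E (k + 1)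
  have hmul := al_mul E k
  have key : ∀ j : ℕ, j < nt k (E.typ (k + 1) y) → 0 ≤ (y + j) * E.al k ∧ (y + j) * E.al k < 1 := by
    intro j hj
    have hT := tower_lt E k h1 hj
    refine ⟨mul_nonneg (by positivity) hpos.le, ?_⟩
    calc (y + j) * E.al k < (NN k - E.al (k + 1)) * E.al k := mul_lt_mul_of_pos_right hT hpos
      _ = 1 := hmul
  refine ⟨(key i hi).1, (key i hi).2, typ_sub E k h0 h1 hi, ?_, ?_⟩
  · intro hi'
    have h2 := key (i + 1) hi'
    have e : (y + i) * E.al k + E.al k = (y + (i + 1 : ℕ)) * E.al k := by push_cast; ring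
    rw [e, Int.fract_eq_self]
    exact h2
  · intro hi'
    have hr : (i : ℝ) + 1 = nt k (E.typ (k + 1) y) := by exact_mod_cast hi'
    rw [nt_cast] at hr
    by_cases h4 : E.typ (k + 1) y = 4
    · rw [if_pos h4] at hr
      have hy : 1 - E.al (k + 1) ≤ y := by
        rcases typ_cases E (k + 1) y with h | h | h | h | h
        · rw [h.1] at h4; exact absurd h4 (by decide)
        · rw [h.1] at h4; exact absurd h4 (by decide)
        · rw [h.1] at h4; exact absurd h4 (by decide)
        · rw [h.1] at h4; exact absurd h4 (by decide)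
        · exact h.2.2
      have e1 : Int.fract (y + E.al (k + 1)) = y + E.al (k + 1) - 1 := by
        rw [Int.fract_eq_iff]
        exact ⟨by linarith, by linarith, 1, by push_cast; ring⟩
      rw [e1, Int.fract_eq_iff]
      refine ⟨mul_nonneg (by linarith) hpos.le, ?_, 1, ?_⟩
      · nlinarith
      · push_cast
        have : (i : ℝ) = NN k - 2 := by linarith
        rw [this]
        linear_combination hmul
    · rw [if_neg h4] at hr
      have hy : y < 1 - E.al (k + 1) := by
        have := tower_lt E k h1 hi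
        linarith
      have e1 : Int.fract (y + E.al (k + 1)) = y + E.al (k + 1) := by
        rw [Int.fract_eq_self]
        exact ⟨by linarith, by linarith⟩
      rw [e1, Int.fract_eq_iff]
      refine ⟨mul_nonneg (by linarith) hpos.le, ?_, 1, ?_⟩
      · nlinarith
      · push_cast
        have : (i : ℝ) = NN k - 1 := by linarith
        rw [this]
        linear_combination hmul

/-- every point of level `k` lies in the tower over level `k + 1` -/
theorem tower_cover (k : ℕ) {z : ℝ} (h0 : 0 ≤ z) (h1 : z < 1) :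
    ∃ y : ℝ, 0 ≤ y ∧ y < 1 ∧ ∃ i < nt k (E.typ (k + 1) y), z = (y + i) * E.al k := by
  have hpos := E.al_pos k
  have hmul := al_mul E k
  have hN := NN_big k
  have hpos' := E.al_pos (k + 1)
  set u := z / E.al k with hu
  have hu0 : 0 ≤ u := div_nonneg h0 hpos.le
  have huz : u * E.al k = z := div_mul_cancel₀ z hpos.ne'
  have hu1 : u < NN k - E.al (k + 1) := by
    rw [← lt_iff_lt E k, huz, hmul]; exact h1
  refine ⟨Int.fract u, Int.fract_nonneg u, Int.fract_lt_one u, ⌊u⌋₊, ?_, ?_⟩
  · have e : (⌊u⌋₊ : ℝ) + Int.fract u = u := by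
      rw [natCast_floor_eq_intCast_floor hu0]
      exact Int.floor_add_fract u
    have hc := typ_cases E (k + 1) (Int.fract u)
    have : (⌊u⌋₊ : ℝ) < nt k (E.typ (k + 1) (Int.fract u)) := by
      rw [nt_cast]
      by_cases h4 : E.typ (k + 1) (Int.fract u) = 4
      · rw [if_pos h4]
        have hy : 1 - E.al (k + 1) ≤ Int.fract u := by
          rcases hc with h | h | h | h | h
          · rw [h.1] at h4; exact absurd h4 (by decide)
          · rw [h.1] at h4; exact absurd h4 (by decide)
          · rw [h.1] at h4; exact absurd h4 (by decide)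
          · rw [h.1] at h4; exact absurd h4 (by decide)
          · exact h.2.2
        linarith
      · rw [if_neg h4]
        have := Int.fract_nonneg u
        linarith
    exact_mod_cast this
  · rw [add_comm, natCast_floor_eq_intCast_floor hu0, Int.floor_add_fract, huz]

theorem inc_eq {x : ℝ} (h0 : 0 ≤ x) : E.par.inc x = ph (E.typ 0 x) := by
  have hA := E.bA_pos 0
  have hg := E.ga_pos 0
  have hB := E.bB_pos 0
  have hD : E.D 0 = E.bA 0 + E.ga 0 + E.bB 0 := rfl
  have hl0 : E.par.lo 0 = 0 := rfl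
  have hl1 : E.par.lo 1 = E.bA 0 + E.ga 0 := rfl
  have hh0 : E.par.hi 0 = E.bA 0 := rfl
  have hh1 : E.par.hi 1 = E.D 0 := rfl
  have hlast : E.D 0 ≤ x → E.par.inc x = 0 := by
    intro hx
    funext i
    fin_cases i
    · show (if E.par.lo 0 ≤ x ∧ x < E.par.hi 0 then (1 : ZMod 3) else 0) = 0
      rw [hl0, hh0, if_neg]
      rintro ⟨-, h⟩; linarith
    · show (if E.par.lo 1 ≤ x ∧ x < E.par.hi 1 then (1 : ZMod 3) else 0) = 0
      rw [hl1, hh1, if_neg]
      rintro ⟨-, h⟩; linarith
  rcases typ_cases E 0 x with h | h | h | h | h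
  · rw [h.1]
    funext i
    fin_cases i
    · show (if E.par.lo 0 ≤ x ∧ x < E.par.hi 0 then (1 : ZMod 3) else 0) = 1
      rw [hl0, hh0, if_pos ⟨h0, h.2⟩]
    · show (if E.par.lo 1 ≤ x ∧ x < E.par.hi 1 then (1 : ZMod 3) else 0) = 0
      rw [hl1, hh1, if_neg]
      rintro ⟨h', -⟩; linarith [h.2]
  · rw [h.1]
    funext i
    fin_cases i
    · show (if E.par.lo 0 ≤ x ∧ x < E.par.hi 0 then (1 : ZMod 3) else 0) = 0
      rw [hl0, hh0, if_neg]
      rintro ⟨-, h'⟩; linarith [h.2.1]
    · show (if E.par.lo 1 ≤ x ∧ x < E.par.hi 1 then (1 : ZMod 3) else 0) = 0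
      rw [hl1, hh1, if_neg]
      rintro ⟨h', -⟩; linarith [h.2.2]
  · rw [h.1]
    funext i
    fin_cases i
    · show (if E.par.lo 0 ≤ x ∧ x < E.par.hi 0 then (1 : ZMod 3) else 0) = 0
      rw [hl0, hh0, if_neg]
      rintro ⟨-, h'⟩; linarith [h.2.1]
    · show (if E.par.lo 1 ≤ x ∧ x < E.par.hi 1 then (1 : ZMod 3) else 0) = 1
      rw [hl1, hh1, if_pos ⟨h.2.1, h.2.2⟩]
  · rw [h.1, hlast h.2.1]
    rfl
  · rw [h.1, hlast h.2.1]
    rfl

theorem typ_half (k : ℕ) : E.typ k (1 / 2) = 3 := by
  have hs := E.small k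
  have hal := E.al_lt k
  have hA := E.bA_pos k
  have hg := E.ga_pos k
  have hB := E.bB_pos k
  have hD : E.D k = E.bA k + E.ga k + E.bB k := rfl
  rcases typ_cases E k (1 / 2) with h | h | h | h | h
  · linarith [h.2]
  · linarith [h.2.2]
  · linarith [h.2.2]
  · exact h.1
  · linarith [h.2.2]

end

end Pool.Agent.helper61.Rot
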