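import Mathlib
import Pool.Agent.helper18.Rot.SymDefs
import Pool.Agent.helper61.Rot.Tower

/-!
# mod:block — orbits at level `k` inside orbits at level `0`
-/

open Topology Filter Set

namespace Pool.Agent.helper61.Rot

open Pool.Agent.helper18.Rot Pool.Agent.helper18.Rot.Sym

section general

variable (P : Par) (x : ℝ)

theorem orb_orb (p i : ℕ) : P.orb (P.orb x p) i = P.orb x (p + i) := by
  unfold Par.orb
  have h : Int.fract (x + p * P.al) + i * P.al =
      (x + (p + i : ℕ) * P.al) - (⌊x + p * P.al⌋ : ℤ) := by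
    rw [← Int.self_sub_floor]; push_cast; ring
  rw [h, Int.fract_sub_intCast]

theorem Lab_add (p n : ℕ) : P.Lab x (p + n) = P.Lab x p + P.Lab (P.orb x p) n := by
  unfold Par.Lab
  rw [Finset.sum_range_add]
  congr 1
  refine Finset.sum_congr rfl fun i _ => ?_
  rw [orb_orb]

theorem Lab_succ (n : ℕ) : P.Lab x (n + 1) = P.Lab x n + P.inc (P.orb x n) := by
  unfold Par.Lab
  rw [Finset.sum_range_succ]

theorem Cnt_eq_cw (n : ℕ) (g : Ga) : P.Cnt x n g = cw P x 0 n g := by
  unfold Par.Cnt cw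
  rw [Nat.Ico_zero_eq_range]

theorem cw_shift (p a b : ℕ) (g : Ga) :
    cw P x (p + a) (p + b) g = cw P (P.orb x p) a b (g - P.Lab x p) := by
  unfold cw
  symm
  refine Finset.card_bij (fun i _ => p + i) ?_ ?_ ?_
  · intro i hi
    rw [Finset.mem_filter, Finset.mem_Ico] at hi ⊢
    refine ⟨⟨by omega, by omega⟩, ?_⟩
    rw [show p + i + 1 = p + (i + 1) by ring, Lab_add, hi.2]
    abel
  · intro i _ j _ h
    simpa using h
  · intro j hj
    rw [Finset.mem_filter, Finset.mem_Ico] at hj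
    refine ⟨j - p, ?_, by omega⟩
    rw [Finset.mem_filter, Finset.mem_Ico]
    refine ⟨⟨by omega, by omega⟩, ?_⟩
    have h := hj.2
    rw [show j + 1 = p + (j - p + 1) by omega, Lab_add] at h
    rw [← h]
    abel

theorem cw_add {p q r : ℕ} (h1 : p ≤ q) (h2 : q ≤ r) (g : Ga) :
    cw P x p r g = cw P x p q g + cw P x q r g := by
  unfold cw
  rw [← Finset.Ico_union_Ico_eq_Ico h1 h2, Finset.filter_union, Finset.card_union_of_disjoint]
  exact (Finset.Ico_disjoint_Ico_consecutive p q r).mono (Finset.filter_subset _ _)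
    (Finset.filter_subset _ _)

theorem sum_cw {p q : ℕ} (_h : p ≤ q) : ∑ g, cw P x p q g = q - p := by
  unfold cw
  rw [← Finset.card_eq_sum_card_fiberwise (f := fun i => P.Lab x (i + 1)) (t := Finset.univ)
    (fun i _ => Finset.mem_coe.mpr (Finset.mem_univ _))]
  rw [Nat.card_Ico]

end general

section counts

theorem Lb_zero (k : ℕ) (t : Letter) : Lb k t 0 = 0 := by simp [Lb]

theorem Lb_succ (k : ℕ) (t : Letter) (i : ℕ) : Lb k t (i + 1) = Lb k t i + ph (sub k t i) := by
  unfold Lb; rw [Finset.sum_range_succ]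

theorem gB_le (k : ℕ) (t : Letter) : 3 * mA k + eA t ≤ gB k t ∧ gB k t ≤ gR k t := by
  unfold gB gR eA
  have hl : 1 ≤ ml k := by
    unfold ml jj
    have : 0 < 3 * ((Nat.unpair k).1 + 1) * (k + 1) := by positivity
    omega
  rcases letter_cases t with h | h | h | h | h <;> subst h <;> simp <;> omega

/-- explicit formula for the sheet before letter `i` -/
theorem Lb_eq' (k : ℕ) (t : Letter) (i : ℕ) :
    Lb k t i = ![((min i (3 * mA k + eA t) : ℕ) : ZMod 3),
      ((min i (gR k t) - gB k t : ℕ) : ZMod 3)] := by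
  have hg := gB_le k t
  induction i with
  | zero =>
    rw [Lb_zero]
    funext j
    fin_cases j <;> simp
  | succ i ih =>
    rw [Lb_succ, ih]
    unfold sub
    split_ifs with h1 h2 h3 h4
    · rw [min_eq_left (by omega : i + 1 ≤ 3 * mA k + eA t), min_eq_left (by omega : i ≤ 3 * mA k + eA t),
        Nat.sub_eq_zero_of_le (by omega : min i (gR k t) ≤ gB k t),
        Nat.sub_eq_zero_of_le (by omega : min (i + 1) (gR k t) ≤ gB k t)]
      funext j
      fin_cases j <;> simp [ph]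
    · rw [min_eq_right (by omega : 3 * mA k + eA t ≤ i + 1),
        min_eq_right (by omega : 3 * mA k + eA t ≤ i),
        Nat.sub_eq_zero_of_le (by omega : min i (gR k t) ≤ gB k t),
        Nat.sub_eq_zero_of_le (by omega : min (i + 1) (gR k t) ≤ gB k t)]
      simp [ph]
    · rw [min_eq_right (by omega : 3 * mA k + eA t ≤ i + 1),
        min_eq_right (by omega : 3 * mA k + eA t ≤ i),
        min_eq_left (by omega : i ≤ gR k t), min_eq_left (by omega : i + 1 ≤ gR k t),
        show i + 1 - gB k t = (i - gB k t) + 1 by omega]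
      funext j
      fin_cases j <;> simp [ph]
    · rw [min_eq_right (by omega : 3 * mA k + eA t ≤ i + 1),
        min_eq_right (by omega : 3 * mA k + eA t ≤ i),
        min_eq_right (by omega : gR k t ≤ i), min_eq_right (by omega : gR k t ≤ i + 1)]
      simp [ph]
    · rw [min_eq_right (by omega : 3 * mA k + eA t ≤ i + 1),
        min_eq_right (by omega : 3 * mA k + eA t ≤ i),
        min_eq_right (by omega : gR k t ≤ i), min_eq_right (by omega : gR k t ≤ i + 1)]
      simp [ph]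

theorem gR_le_nt (k : ℕ) (t : Letter) : gR k t ≤ nt k t := by
  have hj : jj k ≤ k + 1 := by
    unfold jj
    have := Nat.unpair_left_le k
    omega
  have hH : HH k ≤ 12 * (k + 1) * (k + 1) := by
    unfold HH mA ml mB
    have h1 : 1 ≤ jj k := by unfold jj; omega
    obtain ⟨a, ha⟩ : ∃ a, jj k = a + 1 := ⟨jj k - 1, by omega⟩
    rw [ha, show 2 * (a + 1) - 1 = 2 * a + 1 by omega]
    have ha' : a + 1 ≤ k + 1 := by omega
    calc 3 * ((a + 1 + 1) * (k + 1)) + 3 * (a + 1) * (k + 1) + 3 * ((2 * a + 1) * (k + 1))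
        = 12 * (a + 1) * (k + 1) := by ring
      _ ≤ 12 * (k + 1) * (k + 1) := by gcongr
  have hN : 12 * (k + 1) * (k + 1) + 2 ≤ NN k := by
    unfold NN
    have h1 : (k + 2) ^ 2 ≤ (k + 2) ^ 8 := Nat.pow_le_pow_right (by omega) (by omega)
    nlinarith
  have h1 : gR k t ≤ HH k + 1 := by
    unfold gR HH
    split_ifs <;> omega
  have h2 : NN k - 1 ≤ nt k t := by
    unfold nt; split_ifs <;> omega
  omega

theorem Lb_nt (k : ℕ) (t : Letter) : Lb k t (nt k t) = ph t := by
  have h1 := gB_le k t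
  have h2 := gR_le_nt k t
  rw [Lb_eq', min_eq_right (by omega : 3 * mA k + eA t ≤ nt k t), min_eq_right h2]
  have h3 : ((3 * mA k + eA t : ℕ) : ZMod 3) = (eA t : ZMod 3) := by
    push_cast
    rw [show (3 : ZMod 3) = 0 from rfl]; ring
  have h4 : ((gR k t - gB k t : ℕ) : ZMod 3) = if t = 2 then 1 else 0 := by
    have : gR k t - gB k t = 3 * mB k + if t = 2 then 1 else 0 := by
      unfold gR gB
      rcases letter_cases t with h | h | h | h | h <;> subst h <;> simp <;> omega
    rw [this]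
    push_cast
    rw [show (3 : ZMod 3) = 0 from rfl]; simp
  rw [h3, h4]
  unfold eA ph
  rcases letter_cases t with h | h | h | h | h <;> subst h <;> (funext j; fin_cases j <;> simp)

theorem tm_zero (k : ℕ) (t : Letter) : tm k t 0 = 0 := by simp [tm]

theorem tm_succ (k : ℕ) (t : Letter) (i : ℕ) : tm k t (i + 1) = tm k t i + len k (sub k t i) := by
  unfold tm; rw [Finset.sum_range_succ]

theorem tm_nt (k : ℕ) (t : Letter) : tm k t (nt k t) = len (k + 1) t := rfl

theorem tm_mono (k : ℕ) (t : Letter) {i j : ℕ} (h : i ≤ j) : tm k t i ≤ tm k t j := by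
  unfold tm
  exact Finset.sum_le_sum_of_subset (Finset.range_mono h)

end counts

section blocks

variable (E : Data)

theorem w_zero : E.w 0 = 1 := by simp [Data.w]

theorem w_succ (k : ℕ) : E.w (k + 1) = E.w k * E.al k := by
  unfold Data.w; rw [Finset.prod_range_succ]

theorem w_pos (k : ℕ) : 0 < E.w k := Finset.prod_pos fun j _ => E.al_pos j

theorem w_le_one (k : ℕ) : E.w k ≤ 1 :=
  Finset.prod_le_one (fun j _ => (E.al_pos j).le) fun j _ => (al_one E j).le

theorem orb_zero_of {x : ℝ} (h0 : 0 ≤ x) (h1 : x < 1) (P : Par) : P.orb x 0 = x := by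
  unfold Par.orb
  simp only [Nat.cast_zero, zero_mul, add_zero]
  rw [Int.fract_eq_self]
  exact ⟨h0, h1⟩

theorem w_mul_mem (k : ℕ) {y : ℝ} (h0 : 0 ≤ y) (h1 : y < 1) :
    0 ≤ E.w k * y ∧ E.w k * y < 1 := by
  have hw := w_pos E k
  have hw1 := w_le_one E k
  refine ⟨mul_nonneg hw.le h0, ?_⟩
  nlinarith

theorem block_aux (k : ℕ)
    (ih : ∀ z : ℝ, 0 ≤ z → z < 1 →
      E.par.orb (E.w k * z) (len k (E.typ k z)) = E.w k * Int.fract (z + E.al k) ∧
      E.par.Lab (E.w k * z) (len k (E.typ k z)) = ph (E.typ k z))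
    {y : ℝ} (h0 : 0 ≤ y) (h1 : y < 1) : ∀ i : ℕ, i ≤ nt k (E.typ (k + 1) y) →
      E.par.orb (E.w (k + 1) * y) (tm k (E.typ (k + 1) y) i) =
        (if i < nt k (E.typ (k + 1) y) then E.w k * ((y + i) * E.al k)
          else E.w (k + 1) * Int.fract (y + E.al (k + 1))) ∧
      E.par.Lab (E.w (k + 1) * y) (tm k (E.typ (k + 1) y) i) = Lb k (E.typ (k + 1) y) i := by
  have hpos : 0 < nt k (E.typ (k + 1) y) := by
    have := NN_big k
    unfold nt; split_ifs <;> omega
  intro i
  induction i with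
  | zero =>
    intro _
    rw [tm_zero, if_pos hpos, Lb_zero]
    obtain ⟨ha, hb⟩ := w_mul_mem E (k + 1) h0 h1
    refine ⟨?_, ?_⟩
    · rw [orb_zero_of ha hb, w_succ]; push_cast; ring
    · simp [Par.Lab]
  | succ i ihi =>
    intro hi
    obtain ⟨h2, h3⟩ := ihi (by omega)
    rw [if_pos (by omega)] at h2
    obtain ⟨t0, t1, t2, t3, t4⟩ := typ_tower E k h0 h1 (i := i) (by omega)
    obtain ⟨i1, i2⟩ := ih _ t0 t1
    rw [t2] at i1 i2
    rw [tm_succ, ← orb_orb, h2, i1, Lab_add, h3, h2, i2, Lb_succ]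
    refine ⟨?_, rfl⟩
    by_cases hlast : i + 1 < nt k (E.typ (k + 1) y)
    · rw [if_pos hlast, t3 hlast]
    · rw [if_neg hlast, t4 (by omega), w_succ]; ring

theorem block (k : ℕ) {y : ℝ} (h0 : 0 ≤ y) (h1 : y < 1) :
    E.par.orb (E.w k * y) (len k (E.typ k y)) = E.w k * Int.fract (y + E.al k) ∧
    E.par.Lab (E.w k * y) (len k (E.typ k y)) = ph (E.typ k y) := by
  induction k generalizing y with
  | zero =>
    rw [w_zero, one_mul, one_mul]
    have hl : len 0 (E.typ 0 y) = 1 := rfl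
    rw [hl]
    refine ⟨?_, ?_⟩
    · unfold Par.orb
      have : E.par.al = E.al 0 := rfl
      rw [this]; simp
    · unfold Par.Lab
      rw [Finset.sum_range_one, orb_zero_of h0 h1, inc_eq E h0]
  | succ k ih =>
    obtain ⟨h2, h3⟩ := block_aux E k (fun z h0 h1 => ih h0 h1) h0 h1 (nt k (E.typ (k + 1) y)) le_rfl
    rw [if_neg (lt_irrefl _), tm_nt] at h2
    rw [tm_nt, Lb_nt] at h3
    exact ⟨h2, h3⟩

theorem block_mid (k : ℕ) {y : ℝ} (h0 : 0 ≤ y) (h1 : y < 1) {i : ℕ}
    (hi : i < nt k (E.typ (k + 1) y)) :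
    E.par.orb (E.w (k + 1) * y) (tm k (E.typ (k + 1) y) i) = E.w k * ((y + i) * E.al k) ∧
    E.par.Lab (E.w (k + 1) * y) (tm k (E.typ (k + 1) y) i) = Lb k (E.typ (k + 1) y) i := by
  obtain ⟨h2, h3⟩ := block_aux E k (fun z h0 h1 => block E k h0 h1) h0 h1 i hi.le
  rw [if_pos hi] at h2
  exact ⟨h2, h3⟩

/-- every orbit point lies in a block of level `k` -/
theorem cover (k : ℕ) {x : ℝ} (h0 : 0 ≤ x) (h1 : x < 1) :
    ∃ y : ℝ, 0 ≤ y ∧ y < 1 ∧ ∃ p < len k (E.typ k y), E.par.orb (E.w k * y) p = x := by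
  induction k with
  | zero =>
    refine ⟨x, h0, h1, 0, ?_, ?_⟩
    · show 0 < 1; omega
    · rw [w_zero, one_mul, orb_zero_of h0 h1]
  | succ k ih =>
    obtain ⟨z, hz0, hz1, p, hp, hpx⟩ := ih
    obtain ⟨y, hy0, hy1, i, hi, rfl⟩ := tower_cover E k hz0 hz1
    have hs := typ_sub E k hy0 hy1 hi
    refine ⟨y, hy0, hy1, tm k (E.typ (k + 1) y) i + p, ?_, ?_⟩
    · rw [hs] at hp
      calc tm k (E.typ (k + 1) y) i + p
          < tm k (E.typ (k + 1) y) i + len k (sub k (E.typ (k + 1) y) i) := by omega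
        _ = tm k (E.typ (k + 1) y) (i + 1) := (tm_succ _ _ _).symm
        _ ≤ tm k (E.typ (k + 1) y) (nt k (E.typ (k + 1) y)) := tm_mono _ _ hi
        _ = len (k + 1) (E.typ (k + 1) y) := tm_nt _ _
    · rw [← orb_orb, (block_mid E k hy0 hy1 hi).1, hpx]

end blocks

end Pool.Agent.helper61.Rot
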